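import Pool.Agent.Run7.h373.CK.Stm

set_option autoImplicit false

/-!
Piece RED of the project CK of helper373. Adapted from `red` in `Pool/Agent/W349/CG/Mu.lean`.
-/

namespace Pool.Agent.Run7.h227.CK

open Polynomial Pool.Agent.Run7.h373.CK

theorem norm_one_of_toZMod {q : ℕ} [Fact q.Prime] (u : ℤ_[q]) (h : PadicInt.toZMod u ≠ 0) :
    ‖(u : ℚ_[q])‖ = 1 := by
  by_contra hne
  have h1 : ‖u‖ < 1 := lt_of_le_of_ne u.2 hne
  apply h
  have h2 : u ∈ RingHom.ker (PadicInt.toZMod (p := q)) := by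
    rw [PadicInt.ker_toZMod, IsLocalRing.mem_maximalIdeal, PadicInt.mem_nonunits]
    exact h1
  exact h2

theorem t_RED : S_RED := by
  intro K _ q hq ℓ N θ P φ z x hℓ hφ hx hne e e' y hdvd hcase
  choose f hf using hdvd
  set u : Fin N → ℤ_[q] := fun i => aeval z (P i) with hu
  have hured : ∀ i, PadicInt.toZMod (u i) = aeval x (P i) := by
    intro i
    have h1 := Polynomial.aeval_algHom_apply (PadicInt.toZMod (p := q)).toIntAlgHom z (P i)
    have h2 : (PadicInt.toZMod (p := q)).toIntAlgHom z = x := hx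
    rw [h2] at h1
    exact h1.symm
  have hunorm : ∀ i, ‖((u i : ℤ_[q]) : ℚ_[q])‖ = 1 := by
    intro i
    apply norm_one_of_toZMod
    rw [hured]
    exact hne i
  have hφu : ∀ i, φ (aeval θ (P i)) = ((u i : ℤ_[q]) : ℚ_[q]) := by
    intro i
    have h1 := Polynomial.aeval_algHom_apply φ.toIntAlgHom θ (P i)
    have h2 : φ.toIntAlgHom θ = (z : ℚ_[q]) := hφ
    rw [h2] at h1
    have h3 := Polynomial.aeval_algHom_apply (PadicInt.Coe.ringHom (p := q)).toIntAlgHom z (P i)
    have h4 : (PadicInt.Coe.ringHom (p := q)).toIntAlgHom z = (z : ℚ_[q]) := rfl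
    rw [h4] at h3
    exact h1.symm.trans h3
  have hne0 : ∀ i, aeval θ (P i) ≠ 0 := by
    intro i h0
    have := hunorm i
    rw [← hφu, h0, map_zero, norm_zero] at this
    exact zero_ne_one this
  set w : K := y * ∏ i, (aeval θ (P i)) ^ (- f i) with hw
  have hprod : (∏ i, (aeval θ (P i)) ^ e i) * (∏ i, (aeval θ (P i)) ^ (- f i)) ^ ℓ
      = ∏ i, (aeval θ (P i)) ^ (e' i) := by
    rw [← Finset.prod_pow, ← Finset.prod_mul_distrib]
    apply Finset.prod_congr rfl
    intro i _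
    rw [← zpow_natCast, ← zpow_mul, ← zpow_add₀ (hne0 i), ← zpow_natCast]
    congr 1
    have := hf i
    linarith
  have key : ∀ s : ℤ, (s = 1 ∨ s = -1) → (∏ i, (aeval θ (P i)) ^ e i = (s : K) * y ^ ℓ) →
      ∃ y' : ZMod q, ∏ i, (aeval x (P i)) ^ e' i = (s : ZMod q) * y' ^ ℓ := by
    intro s hs hy
    have hwl : ∏ i, (aeval θ (P i)) ^ (e' i) = (s : K) * w ^ ℓ := by
      rw [← hprod, hy, hw, mul_pow]
      ring
    have hφw : ∏ i, ((u i : ℤ_[q]) : ℚ_[q]) ^ (e' i) = (s : ℚ_[q]) * (φ w) ^ ℓ := by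
      have := congrArg φ hwl
      rw [map_prod, map_mul, map_intCast, map_pow] at this
      rw [← this]
      apply Finset.prod_congr rfl
      intro i _
      rw [map_pow, hφu]
    have hns : ‖(s : ℚ_[q])‖ = 1 := by
      rcases hs with rfl | rfl <;> simp
    have hn : ‖φ w‖ = 1 := by
      have h1 := congrArg norm hφw
      rw [norm_prod, norm_mul, hns, one_mul, norm_pow] at h1
      have h2 : ∏ i, ‖((u i : ℤ_[q]) : ℚ_[q]) ^ (e' i)‖ = 1 := by
        apply Finset.prod_eq_one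
        intro i _
        rw [norm_pow, hunorm, one_pow]
      rw [h2] at h1
      exact (pow_eq_one_iff_of_nonneg (norm_nonneg _) hℓ.ne_zero).1 h1.symm
    set W : ℤ_[q] := ⟨φ w, hn.le⟩ with hW
    have hWl : ∏ i, (u i) ^ (e' i) = (s : ℤ_[q]) * W ^ ℓ := by
      apply Subtype.coe_injective
      have : (PadicInt.Coe.ringHom (p := q)) (∏ i, (u i) ^ (e' i))
          = (PadicInt.Coe.ringHom (p := q)) ((s : ℤ_[q]) * W ^ ℓ) := by
        rw [map_prod, map_mul, map_intCast, map_pow]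
        simp_rw [map_pow]
        exact hφw
      exact this
    refine ⟨PadicInt.toZMod W, ?_⟩
    have := congrArg (PadicInt.toZMod (p := q)) hWl
    rw [map_prod, map_mul, map_intCast, map_pow] at this
    rw [← this]
    apply Finset.prod_congr rfl
    intro i _
    rw [map_pow, hured]
  rcases hcase with hy | hy
  · obtain ⟨y', hy'⟩ := key 1 (Or.inl rfl) (by rw [hy]; push_cast; ring)
    exact ⟨y', Or.inl (by rw [hy']; push_cast; ring)⟩
  · obtain ⟨y', hy'⟩ := key (-1) (Or.inr rfl) (by rw [hy]; push_cast; ring)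
    exact ⟨y', Or.inr (by rw [hy']; push_cast; ring)⟩

end Pool.Agent.Run7.h227.CK
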